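import Mathlib
import Pool.Agent.Lib_helper89.AllDegrees

/-!
# The refined Quillen conjecture for `GL_n` over `S`-integers

`K` is a number field containing a primitive `ℓ`-th root of unity, `n < ℓ`, `S` is a finite set of
finite places of `K` containing all places above `ℓ`, and `S.integer K` is the ring of `S`-integers.

* For `n ≥ 1` and every degree `m ≥ 1` there is a nonzero class in `H^m(GL_n(O_{K,S}), F_ℓ)` which
  restricts to zero on every finite subgroup, so that detection on finite subgroups holds in some
  positive degree only for `n = 0`.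
* Consequently, whenever every nonzero class is detected on a finite subgroup, the cohomology ring
  is free over each of its subrings, in particular over the image of the restriction map from the
  continuous cohomology of `GL_n(ℂ)`.
-/

set_option autoImplicit false

open scoped NumberField
open IsDedekindDomain Pool.Agent.Lib_helper89

namespace Pool.Agent.Results.MP_e82a76_al.RefinedQuillen

theorem result (K : Type) [Field K] [NumberField K] (ℓ : ℕ) [Fact ℓ.Prime]
    (hζ : ∃ ζ : K, IsPrimitiveRoot ζ ℓ) (n : ℕ) (_hn : n < ℓ)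
    (S : Set (HeightOneSpectrum (𝓞 K))) (_hfin : S.Finite)
    (hS : ∀ v : HeightOneSpectrum (𝓞 K), (ℓ : 𝓞 K) ∈ v.asIdeal → v ∈ S) :
    (∀ m : ℕ, 1 ≤ m → (DetectedInDegree (ZMod ℓ) (GL (Fin n) (S.integer K)) m ↔ n = 0)) ∧
    (EveryClassDetected (ZMod ℓ) (GL (Fin n) (S.integer K)) →
      FreeOverEachSubring (CohRing (ZMod ℓ) (GL (Fin n) (S.integer K)))) := by
  have h1 : ∀ m : ℕ, 1 ≤ m →
      (DetectedInDegree (ZMod ℓ) (GL (Fin n) (S.integer K)) m ↔ n = 0) := by
    intro m hm
    constructor
    · intro hdet
      by_contra hn0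
      obtain ⟨x, hx, hres⟩ := exists_undetected_all K ℓ hζ S hS n (Nat.pos_of_ne_zero hn0) m hm
      obtain ⟨Γ, hΓ, hne⟩ := hdet x hx
      exact hne (hres Γ hΓ)
    · rintro rfl
      exact detected_of_subsingleton m
  refine ⟨h1, ?_⟩
  intro hdet
  obtain rfl := (h1 1 le_rfl).1 (hdet 1)
  exact free_of_subsingleton ℓ

end Pool.Agent.Results.MP_e82a76_al.RefinedQuillen
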